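import Pool.Agent.V11333.Cone8
import Pool.Agent.V11333.ArtinMat

/-!
# One-sided bounds and the central orders of Artin L-functions

Let `L/K` be a Galois extension of number fields with group `G` (in the problem `K = ℚ`), `S` a finite set of
primes of `K` containing those which ramify in `L`, `χ` the character of a representation `R` of `G`, with REAL
values (for orthogonal and symplectic irreducible `χ`; for unitary `χ` take `χ + χ̄`, whose central order is
twice that of `χ`), and `L_S(s, χ)` the Artin L-function without the Euler factors at `S`, which have neither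
zeros nor poles for `Re s > 0`. The hypothesis is that `L_S(s, χ)` has a continuation `F` along the REAL axis
to `s ≥ 1/2`, analytic at the real points (zeros are allowed). For `κ > 1` let

`S_κ(Y) = ∑_{v ∉ S, k ≥ 1} w_κ(k log Nv / log Y) χ(Frob_v^k) / (k Nv^{k/2})`,
`w_κ(u) = (1/2πi) ∫ exp(z - u z^{1/κ}) dz/z`,

where `Nv^k ≤ exp ((log Y)^{κ'})` (any `κ' > κ`). It is shown that for all `κ₀ ≥ 1` and all REAL `t`:

`S_κ(Y) + t log log Y` is bounded BELOW for `Y → ∞`, for all `κ > κ₀`, if and only if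
`ord_{s=1/2} L(s, χ) ≤ t` and `L_S(s, χ)` has a holomorphic continuation without zeros to the sector
`|arg (s - 1/2)| < π/(2κ₀)`

(for `κ₀ = 1` the half plane `Re s > 1/2`). The statements 2 and 3 of the question are on the central
orders: `ord = 0` for unitary and orthogonal `χ ≠ 1`, and `ord ≤ M_0` for symplectic `χ`. By the theorem the
inequality `ord_{s=1/2} L(s, χ) ≤ M`, together with the Riemann hypothesis (to the right) for `L(s, χ)`, holds if
and only if the lower bound holds with `t = M`, if and only if it holds with some `t < M + 1`; in particular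
`L(1/2, χ) ≠ 0` (with the Riemann hypothesis) if and only if the lower bound holds with some `t < 1`.
-/

set_option autoImplicit false

namespace Pool.Agent.Results.MP_347b49_nt.OneSidedCentralOrders

open Filter Topology Set NumberField IsDedekindDomain

variable {K L : Type} [Field K] [NumberField K] [Field L] [NumberField L] [Algebra K L] {n : ℕ}

/-- The norm of `v`. -/
noncomputable def nrm (v : HeightOneSpectrum (𝓞 K)) : ℕ := Ideal.absNorm v.asIdeal

/-- `g` is the Frobenius automorphism of a prime `Q` of `L` above `v`: `g(x) ≡ x^(N v)` modulo `Q`. -/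
def IsFrobenius (v : HeightOneSpectrum (𝓞 K)) (g : L ≃ₐ[K] L) : Prop :=
  ∃ Q : Ideal (𝓞 L), Q.IsPrime ∧ Q.comap (algebraMap (𝓞 K) (𝓞 L)) = v.asIdeal ∧
    ∀ x y : 𝓞 L, (y : L) = g (x : L) → y - x ^ nrm v ∈ Q

/-- The primes outside `S` are unramified in `L` and `frob v` is a Frobenius automorphism for `v ∉ S`. -/
structure IsData (S : Finset (HeightOneSpectrum (𝓞 K)))
    (frob : HeightOneSpectrum (𝓞 K) → (L ≃ₐ[K] L)) : Prop where
  unramified : ∀ v ∉ S, Squarefree (v.asIdeal.map (algebraMap (𝓞 K) (𝓞 L)))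
  frobenius : ∀ v ∉ S, IsFrobenius v (frob v)

/-- The Euler factor `det (1 - Nv^{-s} R(Frob_v))⁻¹`. -/
noncomputable def factor (frob : HeightOneSpectrum (𝓞 K) → (L ≃ₐ[K] L))
    (R : (L ≃ₐ[K] L) →* Matrix (Fin n) (Fin n) ℂ) (v : HeightOneSpectrum (𝓞 K)) (s : ℂ) : ℂ :=
  ((1 - (nrm v : ℂ) ^ (-s) • R (frob v)).det)⁻¹

/-- The open sector `|arg (s - 1/2)| < π/(2κ)` with vertex `1/2`. -/
def Sector (κ : ℝ) : Set ℂ := {s | s ≠ 1 / 2 ∧ |(s - 1 / 2).arg| < Real.pi / (2 * κ)}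

/-- `F` is a continuation of `L_S(s, χ)` along the real axis: analytic at all real `x ≥ 1/2`, and equal to
the Euler product for real `x > 1`. -/
def IsRealContinuation (S : Finset (HeightOneSpectrum (𝓞 K)))
    (frob : HeightOneSpectrum (𝓞 K) → (L ≃ₐ[K] L))
    (R : (L ≃ₐ[K] L) →* Matrix (Fin n) (Fin n) ℂ) (F : ℂ → ℂ) : Prop :=
  (∀ x : ℝ, 1 / 2 ≤ x → AnalyticAt ℂ F x) ∧
    ∀ x : ℝ, 1 < x → HasProd (fun v : {v : HeightOneSpectrum (𝓞 K) // v ∉ S} =>
      factor frob R v.1 x) (F x)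

/-- `L_S(s, χ)` has a holomorphic continuation `G` without zeros to the union of the sector
`|arg (s - 1/2)| < π/(2κ₀)` and the half plane `Re s > 1`. -/
def ZeroFree (S : Finset (HeightOneSpectrum (𝓞 K)))
    (frob : HeightOneSpectrum (𝓞 K) → (L ≃ₐ[K] L))
    (R : (L ≃ₐ[K] L) →* Matrix (Fin n) (Fin n) ℂ) (κ₀ : ℝ) : Prop :=
  ∃ G : ℂ → ℂ, (∀ s : ℂ, s ∈ Sector κ₀ ∨ 1 < s.re → DifferentiableAt ℂ G s ∧ G s ≠ 0) ∧
    ∀ s : ℂ, 1 < s.re → HasProd (fun v : {v : HeightOneSpectrum (𝓞 K) // v ∉ S} =>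
      factor frob R v.1 s) (G s)

/-- The weight `w_κ(u) = (1/2πi) ∫_{Re z = 1} exp(z - u z^{1/κ}) dz/z`. -/
noncomputable def weight (κ u : ℝ) : ℝ :=
  (2 * Real.pi)⁻¹ * ∫ t : ℝ, (Complex.exp ((1 + t * Complex.I) -
    u * (1 + t * Complex.I) ^ ((κ⁻¹ : ℝ) : ℂ)) / (1 + t * Complex.I)).re

/-- `S_κ(Y)`: the sum of `w_κ(k log Nv / log Y) χ(Frob_v^k) / (k Nv^{k/2})` over the primes `v ∉ S` and the
`k ≥ 1` (here `k = p.2 + 1`) with `Nv^k ≤ exp ((log Y)^{κ'})`. -/
noncomputable def mean (S : Finset (HeightOneSpectrum (𝓞 K)))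
    (frob : HeightOneSpectrum (𝓞 K) → (L ≃ₐ[K] L))
    (R : (L ≃ₐ[K] L) →* Matrix (Fin n) (Fin n) ℂ) (κ κ' Y : ℝ) : ℝ :=
  ∑ᶠ (p : {v : HeightOneSpectrum (𝓞 K) // v ∉ S} × ℕ)
    (_ : (nrm p.1.1 : ℝ) ^ (p.2 + 1) ≤ Real.exp (Real.log Y ^ κ')),
    weight κ (((p.2 : ℝ) + 1) * Real.log (nrm p.1.1) / Real.log Y) *
      ((R (frob p.1.1 ^ (p.2 + 1))).trace.re / (((p.2 : ℝ) + 1) * √(nrm p.1.1 : ℝ) ^ (p.2 + 1)))

/-- `S_κ(Y) + t log log Y` is bounded below for `Y → ∞`, for all `κ' > κ > κ₀`. -/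
def Lower (S : Finset (HeightOneSpectrum (𝓞 K)))
    (frob : HeightOneSpectrum (𝓞 K) → (L ≃ₐ[K] L))
    (R : (L ≃ₐ[K] L) →* Matrix (Fin n) (Fin n) ℂ) (κ₀ t : ℝ) : Prop :=
  ∀ κ κ' : ℝ, κ₀ < κ → κ < κ' → ∃ C : ℝ, ∀ᶠ Y : ℝ in atTop,
    -C ≤ mean S frob R κ κ' Y + t * Real.log (Real.log Y)

open Pool.Agent.V11333
open Pool.Agent.H921R2.TatePole (nm)

variable {S : Finset (HeightOneSpectrum (𝓞 K))} {frob : HeightOneSpectrum (𝓞 K) → (L ≃ₐ[K] L)}
  {R : (L ≃ₐ[K] L) →* Matrix (Fin n) (Fin n) ℂ}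

/-- the eigenvalues -/
noncomputable def ev (S : Finset (HeightOneSpectrum (𝓞 K)))
    (frob : HeightOneSpectrum (𝓞 K) → (L ≃ₐ[K] L))
    (R : (L ≃ₐ[K] L) →* Matrix (Fin n) (Fin n) ℂ)
    (v : {v : HeightOneSpectrum (𝓞 K) | v ∉ S}) (j : Fin n) : ℂ := AM.enum (R (frob v.1)) j

theorem ev_sum (v : {v : HeightOneSpectrum (𝓞 K) | v ∉ S}) (k : ℕ) :
    ∑ j, ev S frob R v j ^ k = (R (frob v.1 ^ k)).trace := by
  rw [map_pow, AM.trace_pow]
  rfl

theorem pure (hR : ∀ g, (R g).trace.im = 0) : PR.Pure 0 (ev S frob R) :=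
  ⟨fun v j => by
    rw [Real.rpow_zero]
    exact (AM.enum_norm R (frob v.1) j).le, fun v k => by
    rw [ev_sum]
    exact hR _⟩

theorem half : (((1 / 2 : ℝ)) : ℂ) = 1 / 2 := by
  push_cast
  rfl

theorem sector_eq (κ : ℝ) : CP.Sector (1 / 2) κ = Sector κ := by
  unfold CP.Sector Sector
  rw [half]

theorem factor_eq (v : {v : HeightOneSpectrum (𝓞 K) | v ∉ S}) (s : ℂ) :
    PR.factor (ev S frob R) v s = factor frob R v.1 s := by
  have h0 : (nrm v.1 : ℂ) ≠ 0 := by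
    have h1 : 2 ≤ nrm v.1 := Pool.Agent.H921R2.TatePole.two_le_nm v.1
    have h2 : nrm v.1 ≠ 0 := by omega
    exact_mod_cast h2
  unfold PR.factor factor
  rw [AM.det_eq _ (by
    rw [Complex.cpow_def_of_ne_zero h0]
    exact Complex.exp_ne_zero _), Finset.prod_inv_distrib]
  rfl

theorem mean_eq (κ κ' Y : ℝ) : CP.mean (1 / 2) (ev S frob R) κ κ' Y = mean S frob R κ κ' Y := by
  unfold CP.mean mean
  refine finsum_congr fun p => finsum_congr fun _ => ?_
  rw [ev_sum, ← Real.sqrt_eq_rpow]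
  rfl

theorem real_iff (F : ℂ → ℂ) :
    CP.IsRealContinuation (1 / 2) 1 (ev S frob R) F ↔ IsRealContinuation S frob R F := by
  unfold CP.IsRealContinuation IsRealContinuation
  simp only [factor_eq]
  rfl

theorem zero_iff (κ₀ : ℝ) : CP.ZeroFree (1 / 2) 1 (ev S frob R) κ₀ ↔ ZeroFree S frob R κ₀ := by
  unfold CP.ZeroFree ZeroFree
  simp only [sector_eq, factor_eq]
  rfl

/-- the main step -/
theorem law (hR : ∀ g, (R g).trace.im = 0) {F : ℂ → ℂ} (hF : IsRealContinuation S frob R F)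
    {κ₀ : ℝ} (hκ₀ : 1 ≤ κ₀) (t : ℝ) :
    Lower S frob R κ₀ t ↔
      (∃ m : ℕ, analyticOrderAt F (1 / 2) = m ∧ (m : ℝ) ≤ t) ∧ ZeroFree S frob R κ₀ := by
  have h1 := CP.order_main (pure (S := S) (frob := frob) hR) (c := 1 / 2) (σ := 1) (by norm_num)
    (by norm_num) hκ₀ ((real_iff F).2 hF) t
  have k1 : CP.LowerR (1 / 2) (ev S frob R) κ₀ t ↔ Lower S frob R κ₀ t := by
    unfold CP.LowerR Lower
    simp only [mean_eq]
  rw [k1, zero_iff, half] at h1
  exact h1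

/-- **Theorem.** Let `L/K` be a Galois extension of number fields, `S` a finite set of primes of `K`
containing the ramified ones, `R` a complex representation of the Galois group with real character `χ`, `F` a
continuation of `L_S(s, χ)` along the real axis which is analytic at all real `s ≥ 1/2`, and `κ₀ ≥ 1`.

(1) For all real `t`: `S_κ(Y) + t log log Y` is bounded below for all `κ' > κ > κ₀` if and only if
`ord_{s=1/2} L_S(s, χ) ≤ t` and `L_S(s, χ)` has a holomorphic continuation without zeros to the union of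
`Re s > 1` and the sector `|arg (s - 1/2)| < π/(2κ₀)`.

(2) For all natural `M`: `ord_{s=1/2} L_S(s, χ) ≤ M` and `L_S(s, χ)` has such a continuation if and only if the
lower bound holds with `t = M`, and if and only if it holds with some `t < M + 1`.

(3) `L_S(1/2, χ) ≠ 0` and `L_S(s, χ)` has such a continuation if and only if the lower bound holds with
`t = 0`, and if and only if it holds with some `t < 1`.

For `κ₀ = 1` the sector is the half plane `Re s > 1/2`. -/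
theorem result (S : Finset (HeightOneSpectrum (𝓞 K))) (frob : HeightOneSpectrum (𝓞 K) → (L ≃ₐ[K] L))
    (_ : IsData S frob) (n : ℕ) (R : (L ≃ₐ[K] L) →* Matrix (Fin n) (Fin n) ℂ)
    (hR : ∀ g, (R g).trace.im = 0) (F : ℂ → ℂ) (hF : IsRealContinuation S frob R F)
    (κ₀ : ℝ) (hκ₀ : 1 ≤ κ₀) :
    (∀ t : ℝ, Lower S frob R κ₀ t ↔
      (∃ m : ℕ, analyticOrderAt F (1 / 2) = m ∧ (m : ℝ) ≤ t) ∧ ZeroFree S frob R κ₀) ∧
    (∀ M : ℕ, ((analyticOrderAt F (1 / 2) ≤ M ∧ ZeroFree S frob R κ₀) ↔ Lower S frob R κ₀ M) ∧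
      (Lower S frob R κ₀ M ↔ ∃ t : ℝ, t < M + 1 ∧ Lower S frob R κ₀ t)) ∧
    ((F (1 / 2) ≠ 0 ∧ ZeroFree S frob R κ₀) ↔ Lower S frob R κ₀ 0) ∧
    (Lower S frob R κ₀ 0 ↔ ∃ t : ℝ, t < 1 ∧ Lower S frob R κ₀ t) ∧
    Sector 1 = {s : ℂ | 1 / 2 < s.re} := by
  have hM : ∀ M : ℕ, ((analyticOrderAt F (1 / 2) ≤ M ∧ ZeroFree S frob R κ₀) ↔
      Lower S frob R κ₀ M) ∧
      (Lower S frob R κ₀ M ↔ ∃ t : ℝ, t < M + 1 ∧ Lower S frob R κ₀ t) := by
    intro M
    refine ⟨?_, ?_, ?_⟩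
    · rw [law hR hF hκ₀]
      refine and_congr_left fun _ => ⟨fun h => ?_, ?_⟩
      · obtain ⟨m, h1, h2⟩ := ENat.le_coe_iff.1 h
        exact ⟨m, h1, by exact_mod_cast h2⟩
      · rintro ⟨m, h1, h2⟩
        rw [h1]
        exact_mod_cast h2
    · intro h
      exact ⟨M, by linarith, h⟩
    · rintro ⟨t, ht, h⟩
      obtain ⟨⟨m, h1, h2⟩, h3⟩ := (law hR hF hκ₀ _).1 h
      refine (law hR hF hκ₀ _).2 ⟨⟨m, h1, ?_⟩, h3⟩
      have h4 : (m : ℝ) < M + 1 := by linarith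
      have h5 : m < M + 1 := by exact_mod_cast h4
      exact_mod_cast Nat.lt_succ_iff.1 h5
  have hF1 : AnalyticAt ℂ F (1 / 2) := by
    have h1 := hF.1 (1 / 2) le_rfl
    rwa [half] at h1
  have h0 := hM 0
  simp only [Nat.cast_zero, zero_add] at h0
  refine ⟨fun t => law hR hF hκ₀ t, hM, ?_, h0.2, ?_⟩
  · rw [← h0.1, ← hF1.analyticOrderAt_eq_zero]
    refine and_congr_left fun _ => ?_
    rw [nonpos_iff_eq_zero]
  · ext s
    rw [← sector_eq, CP.sector_shift, Pool.Agent.TH942.ES.sect_one]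
    simp only [Set.mem_ofPred_eq, Complex.sub_re, Complex.ofReal_re, sub_pos]

end Pool.Agent.Results.MP_347b49_nt.OneSidedCentralOrders
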